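import Mathlib
import Pool.Agent.TH350.VD.Count

/-!
# Cyclotomic units that are not `p`-th powers at any level: residue classes of indices

`E_k = ∏_{a=1}^{p-1} ((1 - ζ^a) / (1 - ζ)) ^ (a ^ (p-1-k))` is Kummer's cyclotomic unit
(`Pool.Agent.TH350.VD.cycUnit`), `IsPow p k`: for some `n ≥ 1` it is a `p`-th power in the field of
the `p^n`-th roots of unity (`ζ` of order `p^n`).  This is the case `N = 1` of the problem: if `E_k`
is not a `p`-th power then the `ω^k`-part of `X⁺` is zero.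
-/

set_option autoImplicit false

namespace Pool.Agent.Results.MP_c2a07f_nt.NonPowersInClasses

open Pool.Agent.TH350.VD

open Classical in
/-- Let `d ≥ 1` and let `p > d^φ(2d)` be prime.  For every residue class `c` modulo `d` and every
`K ≤ (p - 3) / 2` the number `s` of the `m ≤ K`, `m ≡ c (mod d)`, such that `E_{2m}` is not a `p`-th
power in any of the fields `ℚ(ζ_{p^n})`, `n ≥ 1`, satisfies `K < 4^(d-1) (s + 2)^2`. -/
theorem result (p d : ℕ) (hp : p.Prime) (hd : 1 ≤ d) (hpd : d ^ Nat.totient (2 * d) < p)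
    (c : ℤ) (K : ℕ) (hK : 2 * K + 3 ≤ p) :
    K < 4 ^ (d - 1) * ({m ∈ Finset.Icc 1 K | ((m : ℕ) : ℤ) ≡ c [ZMOD d] ∧
      ¬ IsPow p (2 * m)}.card + 2) ^ 2 :=
  classes p d hp hd hpd c K hK

end Pool.Agent.Results.MP_c2a07f_nt.NonPowersInClasses
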